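import Mathlib

set_option autoImplicit false

namespace Pool.Agent.Results.MP_b9b46b_al.LGEquiv

universe u

/-- `A` is an f-ring: the lattice-ordered ring `A` is a subdirect product of totally ordered
commutative rings, i.e. there is a family of surjective homomorphisms of rings and lattices onto
totally ordered rings that jointly separate the elements of `A`. -/
def IsFRing (A : Type u) [CommRing A] [Lattice A] : Prop :=
  ∃ (ι : Type u) (T : ι → Type u) (_ : ∀ i, CommRing (T i)) (_ : ∀ i, LinearOrder (T i))
    (_ : ∀ i, IsOrderedRing (T i)) (φ : ∀ i, A →+* T i),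
    (∀ i, Function.Surjective (φ i)) ∧
    (∀ a b : A, (∀ i, φ i a = φ i b) → a = b) ∧
    (∀ i (a b : A), φ i (a ⊔ b) = φ i a ⊔ φ i b) ∧
    (∀ i (a b : A), φ i (a ⊓ b) = φ i a ⊓ φ i b)

/-- Bounded inversion: every `x > 1` is a unit. -/
def BoundedInversion (A : Type u) [CommRing A] [Lattice A] : Prop :=
  ∀ x : A, 1 < x → IsUnit x

/-- The local-global property for polynomials in `n ≥ 1` variables. -/
def HasLG (A : Type u) [CommRing A] : Prop :=
  ∀ (n : ℕ), 1 ≤ n → ∀ f : MvPolynomial (Fin n) A,
    (∀ (M : Ideal A) [M.IsMaximal],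
      ∃ x : Fin n → Localization.AtPrime M, IsUnit (MvPolynomial.aeval x f)) →
    ∃ y : Fin n → A, IsUnit (MvPolynomial.eval y f)

/-- Condition (b): quadratic unit substitution. -/
def HasQuadraticUnits (A : Type u) [CommRing A] [Lattice A] : Prop :=
  ∀ a b : A, 0 ≤ a → 0 ≤ b → Ideal.span {a} ⊔ Ideal.span {b} = ⊤ → ∃ w : A, IsUnit (a - b * w ^ 2)

section order

variable {A : Type u} [CommRing A] [Lattice A]

theorem isOrderedRing_of_isFRing (h : IsFRing A) : IsOrderedRing A := by
  obtain ⟨ι, T, _, _, _, φ, -, hinj, hsup, hinf⟩ := h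
  have hle : ∀ a b : A, a ≤ b ↔ ∀ i, φ i a ≤ φ i b := by
    intro a b
    constructor
    · intro hab i
      have : a ⊓ b = a := inf_eq_left.2 hab
      rw [← this, hinf]
      exact inf_le_right
    · intro hab
      rw [← inf_eq_left]
      apply hinj
      intro i
      rw [hinf]
      exact inf_eq_left.2 (hab i)
  refine { add_le_add_left := ?_, zero_le_one := ?_, mul_le_mul_of_nonneg_left := ?_, mul_le_mul_of_nonneg_right := ?_ }
  · intro a b hab c
    rw [hle] at hab ⊢
    intro i
    rw [map_add, map_add]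
    exact add_le_add_left (hab i) _
  · rw [hle]
    intro i
    rw [map_zero, map_one]
    exact zero_le_one
  · intro a ha b c hbc
    rw [hle] at *
    intro i
    rw [map_mul, map_mul]
    have := ha i
    rw [map_zero] at this
    exact mul_le_mul_of_nonneg_left (hbc i) this
  · intro a ha b c hbc
    rw [hle] at *
    intro i
    rw [map_mul, map_mul]
    have := ha i
    rw [map_zero] at this
    exact mul_le_mul_of_nonneg_right (hbc i) this

theorem mul_self_nonneg' (h : IsFRing A) (x : A) : 0 ≤ x * x := by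
  obtain ⟨ι, T, _, _, _, φ, -, hinj, hsup, hinf⟩ := h
  rw [← inf_eq_left]
  apply hinj
  intro i
  rw [hinf, map_zero, map_mul]
  exact inf_eq_left.2 (mul_self_nonneg _)

theorem sup_mul_sup (h : IsFRing A) (v : A) : (v ⊔ 0) * ((-v) ⊔ 0) = 0 := by
  obtain ⟨ι, T, _, _, _, φ, -, hinj, hsup, hinf⟩ := h
  apply hinj
  intro i
  rw [map_mul, hsup, hsup, map_zero, map_neg]
  rcases le_total (φ i v) 0 with hv | hv
  · rw [sup_eq_right.2 hv, zero_mul]
  · rw [sup_eq_right.2 (neg_nonpos.2 hv), mul_zero]

theorem sup_sub_sup (h : IsFRing A) (v : A) : v = (v ⊔ 0) - ((-v) ⊔ 0) := by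
  obtain ⟨ι, T, _, _, _, φ, -, hinj, hsup, hinf⟩ := h
  apply hinj
  intro i
  rw [map_sub, hsup, hsup, map_zero, map_neg]
  rcases le_total (φ i v) 0 with hv | hv
  · rw [sup_eq_right.2 hv, sup_eq_left.2 (neg_nonneg.2 hv)]; ring
  · rw [sup_eq_right.2 (neg_nonpos.2 hv), sup_eq_left.2 hv]; ring

end order

section convex

variable {A : Type u} [CommRing A] [Lattice A] (h : IsFRing A) (hb : BoundedInversion A)

include h hb

/-- Maximal ideals are convex. -/
theorem mem_of_le {M : Ideal A} (hM : M.IsMaximal) {a b : A} (ha : 0 ≤ a) (hab : a ≤ b)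
    (hbM : b ∈ M) : a ∈ M := by
  have := isOrderedRing_of_isFRing h
  by_contra haM
  obtain ⟨c, r, hr, hcr⟩ := hM.exists_inv haM
  have key : 1 ≤ 2 * (r * r + (c * c) * (b * b)) := by
    have h1 : 0 ≤ (r - c * a) * (r - c * a) := mul_self_nonneg' h _
    have h2 : a * a ≤ b * b := mul_le_mul hab hab ha (ha.trans hab)
    have h3 : (c * c) * (a * a) ≤ (c * c) * (b * b) :=
      mul_le_mul_of_nonneg_left h2 (mul_self_nonneg' h c)
    have h4 : (1 : A) = (r + c * a) * (r + c * a) := by
      have : r + c * a = 1 := by rw [add_comm]; exact hcr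
      rw [this, one_mul]
    have h5 : (1 : A) ≤ (r + c * a) * (r + c * a) + (r - c * a) * (r - c * a) := by
      calc (1 : A) = (r + c * a) * (r + c * a) + 0 := by rw [add_zero]; exact h4
        _ ≤ _ := by gcongr
    have h6 : (0 : A) ≤ 2 := zero_le_two
    calc (1 : A) ≤ (r + c * a) * (r + c * a) + (r - c * a) * (r - c * a) := h5
      _ = 2 * (r * r + (c * c) * (a * a)) := by ring
      _ ≤ 2 * (r * r + (c * c) * (b * b)) :=
        mul_le_mul_of_nonneg_left (add_le_add le_rfl h3) h6
  have hmem : 2 * (r * r + (c * c) * (b * b)) ∈ M :=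
    M.mul_mem_left _ (M.add_mem (M.mul_mem_left _ hr) (M.mul_mem_left _ (M.mul_mem_left _ hbM)))
  rcases key.eq_or_lt with heq | hlt
  · exact hM.ne_top ((Ideal.eq_top_iff_one _).2 (heq ▸ hmem))
  · exact hM.ne_top (Ideal.eq_top_of_isUnit_mem _ hmem (hb _ hlt))

theorem mem_of_add_mem {M : Ideal A} (hM : M.IsMaximal) {a b : A} (ha : 0 ≤ a) (hb' : 0 ≤ b)
    (hab : a + b ∈ M) : a ∈ M ∧ b ∈ M := by
  have := isOrderedRing_of_isFRing h
  exact ⟨mem_of_le h hb hM ha (le_add_of_nonneg_right hb') hab,
    mem_of_le h hb hM hb' (le_add_of_nonneg_left ha) hab⟩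

/-- Key step: a quadratic unit produces an idempotent that separates `a` and `b`. -/
theorem exists_idempotent (hq : HasQuadraticUnits A) {a b : A} (ha : 0 ≤ a) (hb' : 0 ≤ b)
    (hab : Ideal.span {a} ⊔ Ideal.span {b} = ⊤) :
    ∃ e : A, e * e = e ∧ a ∣ e ∧ b ∣ 1 - e := by
  have := isOrderedRing_of_isFRing h
  obtain ⟨w, hw⟩ := hq a b ha hb' hab
  obtain ⟨t, ht⟩ := hw.exists_right_inv
  set v : A := a - b * w ^ 2 with hv
  set p : A := v ⊔ 0 with hp
  set q : A := (-v) ⊔ 0 with hq'
  have hpq : p * q = 0 := sup_mul_sup h v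
  have hvpq : v = p - q := sup_sub_sup h v
  have hp0 : 0 ≤ p := le_sup_right
  have hq0 : 0 ≤ q := le_sup_right
  have hw0 : 0 ≤ b * w ^ 2 := by
    have := mul_self_nonneg' h w
    rw [← pow_two] at this
    exact mul_nonneg hb' this
  have hv2 : v * v = p * p + q * q := by
    rw [hvpq]; linear_combination (-2) * hpq
  have ht2 : v * v * (t * t) = 1 := by
    calc v * v * (t * t) = (v * t) * (v * t) := by ring
      _ = 1 := by rw [ht, one_mul]
  have h1e : 1 - p * p * (t * t) = q * q * (t * t) := by
    rw [← ht2, hv2]; ring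
  have hunit : ∀ x : A, (∀ M : Ideal A, M.IsMaximal → x ∉ M) → IsUnit x := by
    intro x hx
    by_contra hxu
    obtain ⟨M, hM, hxM⟩ := exists_max_ideal_of_mem_nonunits hxu
    exact hx M hM hxM
  have hvM : ∀ M : Ideal A, M.IsMaximal → v ∉ M := fun M hM hvM =>
    hM.ne_top (Ideal.eq_top_of_isUnit_mem _ hvM hw)
  have htM : ∀ M : Ideal A, M.IsMaximal → t ∉ M := fun M hM htM =>
    hM.ne_top (Ideal.eq_top_of_isUnit_mem _ htM (IsUnit.of_mul_eq_one v (by rw [mul_comm]; exact ht)))
  have hpow : ∀ M : Ideal A, M.IsMaximal → ∀ x : A, x * x * (t * t) ∈ M → x ∈ M := by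
    intro M hM x hx
    rcases hM.isPrime.mem_or_mem hx with h1 | h1
    · rcases hM.isPrime.mem_or_mem h1 with h2 | h2 <;> exact h2
    · rcases hM.isPrime.mem_or_mem h1 with h2 | h2 <;> exact absurd h2 (htM M hM)
  refine ⟨p * p * (t * t), ?_, ?_, ?_⟩
  · have h1 : p * p * (t * t) * (q * q * (t * t)) = 0 := by
      calc p * p * (t * t) * (q * q * (t * t)) = (p * q) * (p * q) * (t * t * (t * t)) := by ring
        _ = 0 := by rw [hpq]; ring
    rw [← h1e] at h1
    linear_combination -h1
  · have hu : IsUnit (a + q * q * (t * t)) := by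
      apply hunit
      intro M hM hmem
      obtain ⟨h1, h2⟩ := mem_of_add_mem h hb hM ha
        (mul_nonneg (mul_self_nonneg' h q) (mul_self_nonneg' h t)) hmem
      have hqM : q ∈ M := hpow M hM q h2
      have h3 : p + b * w ^ 2 ∈ M := by
        have : p + b * w ^ 2 = a + q := by
          have := hvpq; rw [hv] at this; linear_combination -this
        rw [this]; exact M.add_mem h1 hqM
      have hpM : p ∈ M := (mem_of_add_mem h hb hM hp0 hw0 h3).1
      exact hvM M hM (hvpq ▸ M.sub_mem hpM hqM)
    obtain ⟨s, hs⟩ := hu.exists_right_inv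
    refine ⟨p * p * (t * t) * s, ?_⟩
    have h1 : p * p * (t * t) * (q * q * (t * t)) = 0 := by
      calc p * p * (t * t) * (q * q * (t * t)) = (p * q) * (p * q) * (t * t * (t * t)) := by ring
        _ = 0 := by rw [hpq]; ring
    calc p * p * (t * t) = p * p * (t * t) * ((a + q * q * (t * t)) * s) := by rw [hs, mul_one]
      _ = a * (p * p * (t * t) * s) + p * p * (t * t) * (q * q * (t * t)) * s := by ring
      _ = a * (p * p * (t * t) * s) := by rw [h1]; ring
  · have hu : IsUnit (b + p * p * (t * t)) := by
      apply hunit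
      intro M hM hmem
      obtain ⟨h1, h2⟩ := mem_of_add_mem h hb hM hb'
        (mul_nonneg (mul_self_nonneg' h p) (mul_self_nonneg' h t)) hmem
      have hpM : p ∈ M := hpow M hM p h2
      have h3 : a + q ∈ M := by
        have : a + q = p + b * w ^ 2 := by
          have := hvpq; rw [hv] at this; linear_combination this
        rw [this]; exact M.add_mem hpM (M.mul_mem_right _ h1)
      have haM : a ∈ M := (mem_of_add_mem h hb hM ha hq0 h3).1
      apply hM.ne_top
      rw [eq_top_iff, ← hab]
      refine sup_le ?_ ?_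
      · rw [Ideal.span_singleton_le_iff_mem]; exact haM
      · rw [Ideal.span_singleton_le_iff_mem]; exact h1
    obtain ⟨s, hs⟩ := hu.exists_right_inv
    rw [h1e]
    refine ⟨q * q * (t * t) * s, ?_⟩
    have h1 : q * q * (t * t) * (p * p * (t * t)) = 0 := by
      calc q * q * (t * t) * (p * p * (t * t)) = (p * q) * (p * q) * (t * t * (t * t)) := by ring
        _ = 0 := by rw [hpq]; ring
    calc q * q * (t * t) = q * q * (t * t) * ((b + p * p * (t * t)) * s) := by rw [hs, mul_one]
      _ = b * (q * q * (t * t) * s) + q * q * (t * t) * (p * p * (t * t)) * s := by ring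
      _ = b * (q * q * (t * t) * s) := by rw [h1]; ring

end convex

section glue

variable {A : Type u} [CommRing A]

/-- Evaluating at a point glued from two points along an idempotent. -/
theorem eval_glue {n : ℕ} (f : MvPolynomial (Fin n) A) {e : A} (he : e * e = e)
    (y z : Fin n → A) :
    MvPolynomial.eval (fun i => e * y i + (1 - e) * z i) f =
      e * MvPolynomial.eval y f + (1 - e) * MvPolynomial.eval z f := by
  induction f using MvPolynomial.induction_on with
  | C a => simp only [MvPolynomial.eval_C]; ring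
  | add p q hp hq => simp only [map_add, hp, hq]; ring
  | mul_X p i hp =>
    simp only [map_mul, MvPolynomial.eval_X, hp]
    linear_combination (MvPolynomial.eval y p * y i - MvPolynomial.eval y p * z i
      - MvPolynomial.eval z p * y i + MvPolynomial.eval z p * z i) * he

/-- A local solution at `M` lifts to a global point where `f` does not vanish at `M`. -/
theorem exists_point {n : ℕ} (f : MvPolynomial (Fin n) A) (M : Ideal A) [M.IsMaximal]
    (hx : ∃ x : Fin n → Localization.AtPrime M, IsUnit (MvPolynomial.aeval x f)) :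
    ∃ y : Fin n → A, MvPolynomial.eval y f ∉ M := by
  obtain ⟨x, hx⟩ := hx
  choose y hy using fun i => M.algebraMap_residueField_surjective
    (IsLocalRing.residue (Localization.AtPrime M) (x i))
  refine ⟨y, fun hmem => ?_⟩
  have h1 : algebraMap A M.ResidueField (MvPolynomial.eval y f) =
      IsLocalRing.residue (Localization.AtPrime M) (MvPolynomial.aeval x f) := by
    have h2 : algebraMap A M.ResidueField (MvPolynomial.eval y f) =
        MvPolynomial.eval₂ (algebraMap A M.ResidueField)
          (fun i => algebraMap A M.ResidueField (y i)) f := by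
      rw [← MvPolynomial.eval₂_id, MvPolynomial.eval₂_comp_left]
      rfl
    have h3 : IsLocalRing.residue (Localization.AtPrime M) (MvPolynomial.aeval x f) =
        MvPolynomial.eval₂ (algebraMap A M.ResidueField)
          (fun i => IsLocalRing.residue (Localization.AtPrime M) (x i)) f := by
      rw [MvPolynomial.aeval_def, MvPolynomial.eval₂_comp_left]
      rfl
    rw [h2, h3]
    congr 1
    funext i
    exact hy i
  have h4 : algebraMap A M.ResidueField (MvPolynomial.eval y f) = 0 := by
    rw [← RingHom.mem_ker, Ideal.ker_algebraMap_residueField]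
    exact hmem
  rw [h4] at h1
  exact (hx.map (IsLocalRing.residue (Localization.AtPrime M))).ne_zero h1.symm

end glue

/-- Sanity check: the real numbers satisfy all the hypotheses. -/
theorem real_in_class : IsFRing ℝ ∧ IsReduced ℝ ∧ BoundedInversion ℝ := by
  refine ⟨⟨PUnit, fun _ => ℝ, fun _ => inferInstance, fun _ => inferInstance,
    fun _ => inferInstance, fun _ => RingHom.id ℝ, fun _ => Function.surjective_id,
    fun a b hab => hab PUnit.unit, fun _ _ _ => rfl, fun _ _ _ => rfl⟩, inferInstance, ?_⟩
  intro x hx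
  exact isUnit_iff_ne_zero.2 (by linarith [hx, (zero_lt_one : (0 : ℝ) < 1)] : (0 : ℝ) < x).ne'

/-- For every reduced f-ring with bounded inversion, the local-global property and condition (b)
are equivalent. -/
theorem result (A : Type u) [CommRing A] [Lattice A] (h : IsFRing A) (_hred : IsReduced A)
    (hb : BoundedInversion A) : HasLG A ↔ HasQuadraticUnits A := by
  have := isOrderedRing_of_isFRing h
  constructor
  · intro hLG a b ha hb' hab
    obtain ⟨y, hy⟩ := hLG 1 le_rfl
      (MvPolynomial.C a - MvPolynomial.C b * (MvPolynomial.X 0) ^ 2) (by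
        intro M hM
        by_cases haM : a ∈ M
        · refine ⟨fun _ => 1, ?_⟩
          have h1 : a - b ∉ M := by
            intro h1
            have hbM : b ∈ M := by
              have := M.sub_mem haM h1
              simpa using this
            apply hM.ne_top
            rw [eq_top_iff, ← hab]
            refine sup_le ?_ ?_
            · rw [Ideal.span_singleton_le_iff_mem]; exact haM
            · rw [Ideal.span_singleton_le_iff_mem]; exact hbM
          have h2 := IsLocalization.map_units (Localization.AtPrime M)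
            (⟨a - b, h1⟩ : M.primeCompl)
          simpa using h2
        · refine ⟨fun _ => 0, ?_⟩
          have h2 := IsLocalization.map_units (Localization.AtPrime M)
            (⟨a, haM⟩ : M.primeCompl)
          simpa using h2)
    refine ⟨y 0, ?_⟩
    simpa using hy
  · intro hq n _ f hloc
    -- local step
    have hstep : ∀ M : Ideal A, M.IsMaximal →
        ∃ (e : A) (y : Fin n → A), e * e = e ∧ MvPolynomial.eval y f ∣ e ∧ e ∉ M := by
      intro M hM
      obtain ⟨y, hy⟩ := exists_point f M (hloc M)
      set c := MvPolynomial.eval y f with hc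
      obtain ⟨r, m, hm, hrm⟩ := hM.exists_inv hy
      have h0 : 0 ≤ c * c := mul_self_nonneg' h c
      have h1 : 0 ≤ m * m := mul_self_nonneg' h m
      have hcop : Ideal.span {c * c} ⊔ Ideal.span {m * m} = ⊤ := by
        rw [Ideal.eq_top_iff_one]
        have h2 : (1 : A) = (r * r * (1 + 2 * m)) * (c * c) + (1 + 2 * (r * c)) * (m * m) := by
          have h3 : m = 1 - r * c := by rw [← hrm]; ring
          rw [h3]; ring
        rw [h2]
        exact Ideal.add_mem _
          (Ideal.mem_sup_left (Ideal.mul_mem_left _ _ (Ideal.mem_span_singleton_self _)))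
          (Ideal.mem_sup_right (Ideal.mul_mem_left _ _ (Ideal.mem_span_singleton_self _)))
      obtain ⟨e, he, hce, hme⟩ := exists_idempotent h hb hq h0 h1 hcop
      refine ⟨e, y, he, (dvd_mul_right c c).trans hce, fun heM => ?_⟩
      have : (1 : A) - e ∈ M := by
        obtain ⟨k, hk⟩ := hme
        rw [hk]
        exact M.mul_mem_right _ (M.mul_mem_left _ hm)
      apply hM.ne_top
      rw [Ideal.eq_top_iff_one]
      have := M.add_mem this heM
      simpa using this
    -- the ideal of elements supported on a good idempotent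
    let J : Ideal A :=
      { carrier := {a | ∃ (e : A) (y : Fin n → A),
          e * e = e ∧ MvPolynomial.eval y f ∣ e ∧ a * e = a}
        zero_mem' := ?_
        add_mem' := ?_
        smul_mem' := ?_ }
    · have hJ : J = ⊤ := by
        by_contra hne
        obtain ⟨M, hM, hJM⟩ := Ideal.exists_le_maximal J hne
        obtain ⟨e, y, he, hye, heM⟩ := hstep M hM
        exact heM (hJM ⟨e, y, he, hye, he⟩)
      have h1 : (1 : A) ∈ J := by rw [hJ]; trivial
      obtain ⟨e, y, -, hye, h1e⟩ := h1
      rw [one_mul] at h1e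
      exact ⟨y, isUnit_of_dvd_one (h1e ▸ hye)⟩
    · rintro a b ⟨e, y, he, ⟨c, hc⟩, hae⟩ ⟨e', z, he', ⟨d, hd⟩, hbe⟩
      refine ⟨e + (1 - e) * e', fun i => e * y i + (1 - e) * z i, ?_, ?_, ?_⟩
      · linear_combination (1 - e') * he + (1 - e) ^ 2 * he'
      · rw [eval_glue f he]
        refine ⟨e * c + (1 - e) * d, ?_⟩
        linear_combination (-(e + 1) - e' + (MvPolynomial.eval y f * d
          + MvPolynomial.eval z f * c)) * he + e ^ 2 * hc + (1 - e) ^ 2 * hd
      · linear_combination (1 - e') * hae + (1 - e) * hbe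
    · exact ⟨0, 0, by ring, dvd_zero _, by ring⟩
    · rintro c a ⟨e, y, he, hye, hae⟩
      refine ⟨e, y, he, hye, ?_⟩
      rw [smul_eq_mul, mul_assoc, hae]

end Pool.Agent.Results.MP_b9b46b_al.LGEquiv
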